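import Mathlib
import Pool.Agent.H.MP_75c46b_gt.A

open Set Filter Topology

namespace Pool.Agent.Results.MP_75c46b_gt.Width

/-- `d(A, B)` -/
noncomputable def setDist {X : Type} [MetricSpace X] (A B : Set X) : ℝ :=
  sInf {d | ∃ p ∈ A, ∃ q ∈ B, d = dist p q}

/-- the width `w(X)` -/
noncomputable def width (X : Type) [MetricSpace X] : ℝ :=
  sSup {a | ∀ ε > 0, ∃ C : Set (Set X), C.Finite ∧ (∀ A ∈ C, IsOpen A ∧ A.Nonempty) ∧
    ⋃₀ C = univ ∧ (∀ A ∈ C, Metric.diam A < ε) ∧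
    ∀ (n : ℕ) (c : Fin (n + 1) → Set X), (∀ i, c i ∈ C) →
      (∀ i j, (c i ∩ c j).Nonempty ↔ |(i : ℤ) - j| ≤ 1) → ∃ A ∈ C, a ≤ setDist A (⋃ i, c i)}

/-- chainable (arc-like) -/
def Chainable (Y : Type) [MetricSpace Y] : Prop :=
  ∀ ε > 0, ∃ g : Y → unitInterval, Continuous g ∧ Function.Surjective g ∧
    ∀ z, Metric.diam (g ⁻¹' {z}) ≤ ε

theorem result (X Y : Type) [MetricSpace X] [CompactSpace X] [ConnectedSpace X]
    [MetricSpace Y] [CompactSpace Y] [ConnectedSpace Y] (hY : Chainable Y)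
    (f : X → Y) (hf : Continuous f) (a : ℝ) (h0 : 0 < a) (ha : a < width X) :
    ∃ x y : X, dist x y = a ∧ f x = f y := by
  by_contra h
  push Not at h
  obtain ⟨η, hη, hη'⟩ := (isClosed_eq (continuous_dist (α := X))
    (continuous_const (y := a))).isCompact.exists_forall_le' (a := 0)
      (f := fun p => dist (f p.1) (f p.2)) (by fun_prop) fun p hp => dist_pos.2 (h p.1 p.2 hp)
  obtain ⟨g, h1, -, h2⟩ := hY (η / 2) (half_pos hη)
  obtain ⟨ε, hε, h3⟩ := Pool.Agent.H.MP_75c46b_gt.main (φ := fun x => (g (f x) : ℝ)) (by fun_prop)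
    h0 fun x y h4 h5 => by
      have := (Metric.dist_le_diam_of_mem Metric.isBounded_of_compactSpace
        (show f x ∈ g ⁻¹' {g (f y)} from Subtype.ext h4) rfl).trans (h2 _)
      have := hη' (x, y) h5
      linarith
  refine absurd (Real.sSup_le (fun b hb => ?_) h0.le) ha.not_ge
  obtain ⟨C, c1, c2, c3, c4, c5⟩ := hb ε hε
  obtain ⟨n, c, h4, h5, h6⟩ := h3 C c1 c2 c3 c4
  obtain ⟨A, hA, h7⟩ := c5 n c h4 h5
  obtain ⟨p, hp, q, hq, h8⟩ := h6 A hA
  refine h7.trans (le_trans (csInf_le ⟨0, ?_⟩ ?_) h8.le)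
  · rintro _ ⟨_, _, _, _, rfl⟩
    exact dist_nonneg
  · exact ⟨p, hp, q, hq, rfl⟩

end Pool.Agent.Results.MP_75c46b_gt.Width
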